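import Pool.Agent.H366.NK.Zag2

/-!
# Zagier's conjecture (with Zagier's groups) for all number fields and all `n ≥ 2`

Let `F` be a number field and `k = ℝ` or `k = ℚ` a field of coefficients. Zagier's groups:
`ker δ_n ⊗ k` and the relations `R_n ⊗ k` are subspaces of `k[F]` defined by recursion:
`δ_2{x} = (1 - x) ∧ x`, `δ_n{x} = {x} ⊗ x ∈ (k[F]/R_{n-1}) ⊗ F^*` for `n ≥ 3`, and `R_n` is the space
of the elements of `ker δ_n` on which the single-valued polylogarithms `𝓛_n(σ ·)` vanish for all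
embeddings `σ : F → ℂ` (`Pool/Agent/H366/NK/ZagDefs.lean`: `KR k F (RZ k F) n`, `RZ k F n`). So the
coefficients are in `k` throughout, also in the relations: `ker δ_n ⊗ ℝ` and `R_n ⊗ ℝ` are notations for
these subspaces of `ℝ[F]`, not for the extensions of scalars of the spaces for `k = ℚ`.

1. Coefficients `k = ℝ`, without any hypothesis: for all `n ≥ 2` the regulator, given by the
   `𝓛_n(σ ·)`, maps `ker δ_n ⊗ ℝ` onto `ℝ^{d_n}`; so `ker δ_n / R_n ⊗ ℝ = ℝ^{d_n}`.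
2. Coefficients `k = ℚ`. Known (hypothesis `BorelBD`): Borel's theorem on the image `Λ n` of
   `K_{2n-1}(F) ⊗ ℚ` under the regulator, and the theorem of Beilinson-Deligne and de Jeu that the
   regulators of the elements of `ker δ_n` belong to `Λ n`. Then for all `n ≥ 2` the regulator maps
   `ker δ_n ⊗ ℚ` onto `Λ n` (so `ker δ_n / R_n ⊗ ℚ = K_{2n-1}(F) ⊗ ℚ`), and there are
   `y_1, ..., y_{d_n} ∈ ker δ_n ⊗ ℚ` with `ζ_F(n) = π^{n d_{n-1}} d_F^{-1/2} det(𝓛_n(σ_j(y_i)))`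
   (if `d_n = 0`: up to a nonzero rational factor).

The same is proved for arbitrary spaces of relations `R_m`, for instance Goncharov's, if for
`2 ≤ m < n` all elements of `ker δ_m` with zero regulators are in `R_m`.

Proof. A linear functional `g` on `k[F]` which vanishes on `R_n` has the form
`g({x}) = P(x, ..., x; 1 - x) + ∑_{i,w} 𝓛_i(x_w) ψ_{i,w}(x, ..., x)` with multilinear forms `P`,
`ψ_{i,w}` on `F^*` (`Zag1.lean`, `repZ`). If the regulators of `ker δ_n` did not span `ℝ^{d_n}` then a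
linear combination of the functions `𝓛_n(x_w)` would be of this form with `i < n`; this contradicts
the main theorem `Pool.Agent.H366.NK.TSIN` on such identities for all `x ∈ F` with
`0 < |x|_w < 1`, which is proved with the circle method over the ring of integers of `F`.
-/

set_option autoImplicit false

namespace Pool.Agent.Results.MP_f01982_nt.ZagierOriginalForm

open NumberField Pool.Agent.H366.NK

/-- The assertion of Zagier's conjecture for the weight `n` (and the relations `R`): the regulator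
maps `ker δ_n ⊗ ℚ` onto `Λ n`, and `ζ_F(n)` is a determinant of values of `𝓛_n` on `ker δ_n ⊗ ℚ`. -/
def Zagier (F : Type) [Field F] [NumberField F] (R : ℕ → Submodule ℚ (F →₀ ℚ))
    (Λ : (n : ℕ) → Submodule ℚ (Pl F n → ℝ)) (n : ℕ) : Prop :=
  (KR ℚ F R n).map (regZ ℚ F n) = Λ n ∧
  ∃ (y : Pl F n → (F →₀ ℚ)) (q : ℚ), (∀ i, y i ∈ KR ℚ F R n) ∧
    q ≠ 0 ∧ (Nonempty (Pl F n) → q = 1) ∧
    dedekindZeta F n = (((q : ℝ) * Real.pi ^ (n * Fintype.card (Pl F (n - 1))) /
      Real.sqrt |(discr F : ℝ)| * (Matrix.of fun i j => regZ ℚ F n (y i) j).det : ℝ) : ℂ)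

/-- Zagier's conjecture (with Zagier's groups) for all number fields and all `n ≥ 2`: with real
coefficients (no hypothesis); with rational coefficients; and the same for arbitrary relations `R`,
provided that in the weights `2 ≤ m < n` all elements of `ker δ_m` with zero regulators belong to
`R_m`. -/
theorem result (F : Type) [Field F] [NumberField F] :
    (∀ n : ℕ, 2 ≤ n → (KR ℝ F (RZ ℝ F) n).map (regZ ℝ F n) = ⊤) ∧
    (∀ Λ : (n : ℕ) → Submodule ℚ (Pl F n → ℝ), BorelBD F (RZ ℚ F) Λ →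
      ∀ n : ℕ, 2 ≤ n → Zagier F (RZ ℚ F) Λ n) ∧
    (∀ (R : ℕ → Submodule ℝ (F →₀ ℝ)) (n : ℕ), 2 ≤ n →
      (∀ m, 2 ≤ m → m < n → KR ℝ F R m ⊓ LinearMap.ker (regZ ℝ F m) ≤ R m) →
      (KR ℝ F R n).map (regZ ℝ F n) = ⊤) ∧
    ∀ (R : ℕ → Submodule ℚ (F →₀ ℚ)) (Λ : (n : ℕ) → Submodule ℚ (Pl F n → ℝ)),
      BorelBD F R Λ → ∀ n : ℕ, 2 ≤ n →
      (∀ m, 2 ≤ m → m < n → KR ℚ F R m ⊓ LinearMap.ker (regZ ℚ F m) ≤ R m) →
      Zagier F R Λ n := by
  refine ⟨fun n hn => ?_, fun Λ hΛ n hn => ?_, fun R n hn hR => reg_onto_real F R n hn hR,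
    fun R Λ hΛ n hn hR => ?_⟩
  · exact reg_onto_real F (RZ ℝ F) n hn fun m hm _ => (RZ_eq ℝ F m hm).ge
  · have hR : ∀ m, 2 ≤ m → m < n →
        KR ℚ F (RZ ℚ F) m ⊓ LinearMap.ker (regZ ℚ F m) ≤ RZ ℚ F m :=
      fun m hm _ => (RZ_eq ℚ F m hm).ge
    exact ⟨reg_onto F (RZ ℚ F) Λ hΛ n hn hR, zagier F (RZ ℚ F) Λ hΛ n hn hR⟩
  · exact ⟨reg_onto F R Λ hΛ n hn hR, zagier F R Λ hΛ n hn hR⟩

end Pool.Agent.Results.MP_f01982_nt.ZagierOriginalForm
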